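import Pool.Agent.H7.CP.Targets
import Pool.Agent.H3.HD.DM

/-!
# Row CD2 of the board `cap_modules` (MP_e37c09_lc): the relation `AC` is uniformly definable
-/

open Ordinal Cardinal Order Set
open scoped ZFSet

universe u

namespace Pool.Agent.H3.CP.CD2

open _root_.HD Pool.Agent.H3.HD.DM

theorem os_congr {ν : Ordinal.{u}} {X Y : Set Ordinal.{u}} (h : ∀ a < ν, (a ∈ X ↔ a ∈ Y)) :
    os ν X = os ν Y := by
  ext z
  rw [mem_os, mem_os]
  exact exists_congr fun a => and_congr_right fun ha => and_congr_left fun _ => h a ha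

/-- `UnC` is definable. -/
theorem do_unc (h : T_CD1.{u}) {en : Ordinal.{u} → ZFSet.{u}} (hen : EN en) :
    DO fun w => UnC en (w 0) (w 1) := by
  refine DO.and ?_ (DO.and ?_ (h en hen).not)
  · refine ⟨fun v => ∃ y : ZFSet.{u}, ((v 1).IsOrdinal ∧ y = en (v 1).rank) ∧ HOD y, ?_, ?_⟩
    · exact DZ.ex (DZ.and (hen.dz.ren fun n => if n = 0 then 2 else 0) (dz_hod 0))
    · intro w
      constructor
      · intro hh
        exact ⟨_, ⟨ZFSet.isOrdinal_toZFSet _, rfl⟩, by simpa [ov, rank_toZFSet] using hh⟩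
      · rintro ⟨y, ⟨-, rfl⟩, hh⟩
        simpa [ov, rank_toZFSet] using hh
  · refine ⟨fun v => ∃ y : ZFSet.{u}, ((v 1).IsOrdinal ∧ y = en (v 1).rank) ∧
      ∀ x ∈ y, x ⊆ v 0, ?_, ?_⟩
    · exact DZ.ex (DZ.and (hen.dz.ren fun n => if n = 0 then 2 else 0)
        (DZ.allMem 0 (Loc.sub 0 2).dz))
    · intro w
      constructor
      · intro hh
        exact ⟨_, ⟨ZFSet.isOrdinal_toZFSet _, rfl⟩, by simpa [ov, rank_toZFSet] using hh⟩
      · rintro ⟨y, ⟨-, rfl⟩, hh⟩
        simpa [ov, rank_toZFSet] using hh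

theorem cc_iff {en : Ordinal.{u} → ZFSet.{u}} {a b : Ordinal.{u}} :
    b = cc en a ↔ (UnC en a b ∧ ∀ x < b, ¬ UnC en a x) ∨ ((¬ ∃ x, UnC en a x) ∧ b = 0) := by
  unfold cc
  by_cases hne : ∃ x, UnC en a x
  · have hs : ({c | UnC en a c} : Set Ordinal.{u}).Nonempty := hne
    have hm : UnC en a (sInf {c | UnC en a c}) := csInf_mem hs
    constructor
    · rintro rfl
      exact Or.inl ⟨hm, fun x hx hu => absurd (csInf_le' (s := {c | UnC en a c}) hu) (not_le.2 hx)⟩
    · rintro (⟨h1, h2⟩ | ⟨h1, -⟩)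
      · refine le_antisymm ?_ (csInf_le' (s := {c | UnC en a c}) h1)
        by_contra hlt
        exact h2 _ (not_le.1 hlt) hm
      · exact absurd hne h1
  · have hs : ({c | UnC en a c} : Set Ordinal.{u}) = ∅ := by
      ext c
      constructor
      · intro hc
        exact absurd ⟨c, hc⟩ hne
      · intro hc
        exact absurd hc (Set.notMem_empty c)
    rw [hs, Ordinal.sInf_empty]
    constructor
    · intro hb
      exact Or.inr ⟨hne, hb⟩
    · rintro (⟨h1, -⟩ | ⟨-, h2⟩)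
      · exact absurd ⟨b, h1⟩ hne
      · exact h2

theorem dr_cc (h : T_CD1.{u}) {en : Ordinal.{u} → ZFSet.{u}} (hen : EN en) :
    DR fun a b => b = cc en a := by
  have hu := do_unc h hen
  refine DO.congr (A := fun w => (UnC en (w 0) (w 1) ∧ ∀ x < w 1, ¬ UnC en (w 0) x) ∨
    ((¬ ∃ x, UnC en (w 0) x) ∧ w 1 = 0)) ?_ fun w => cc_iff
  refine DO.or (DO.and hu (DO.allLt 1 ?_)) (DO.and (DO.not (DO.ex ?_)) (DO.eqc 1 0))
  · exact (hu.s2 1 0).not
  · exact hu.s2 1 0

theorem X (h : T_CD1.{u}) : T_CD2.{u} := by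
  intro en hen
  refine ⟨?_, ?_⟩
  · intro ν X Y hXY
    unfold AC
    rw [os_congr hXY]
  · intro Y hY i
    have h1 : DO fun w => os (w (i + 1)) {a | Y a (fun n => w (n + 1))} ∈ en (w 0) := by
      refine (DO.setArg (R := fun (s : ZFSet.{u}) (v : ℕ → ZFSet.{u}) =>
          ∃ y : ZFSet.{u}, ((v 0).IsOrdinal ∧ y = en (v 0).rank) ∧ s ∈ y) ?_
        (X := fun (a : Ordinal.{u}) (w : ℕ → Ordinal.{u}) => Y a (fun n => w (n + 1))) ?_
        (i + 1)).congr fun w => ?_
      · exact DZ.ex (DZ.and (hen.dz.ren fun n => if n = 0 then 2 else 0) (DZ.mem 1 0))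
      · exact hY.ren fun n => if n = 0 then 0 else n + 1
      · constructor
        · intro hh
          exact ⟨_, ⟨ZFSet.isOrdinal_toZFSet _, rfl⟩, by simpa [ov, rank_toZFSet] using hh⟩
        · rintro ⟨y, ⟨-, rfl⟩, hh⟩
          simpa [ov, rank_toZFSet] using hh
    refine DO.congr (A := fun w => ∃ c, c = cc en (w i) ∧ os (w i) {a | Y a w} ∈ en c)
      (DO.ex ?_) fun w => ?_
    · exact DO.and (DO.s2 (X := fun a b => b = cc en a) (dr_cc h hen) (i + 1) 0) h1
    · show AC en (w i) {a | Y a w} ↔ _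
      unfold AC
      constructor
      · intro hh
        exact ⟨_, rfl, hh⟩
      · rintro ⟨c, rfl, hh⟩
        exact hh

end Pool.Agent.H3.CP.CD2
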