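import Pool.Agent.H7.CP.Targets
import Pool.Agent.H3.HD.DM

/-!
# Row CD3 of the board `cap_modules` (MP_e37c09_lc): the set of the captured points is definable
-/

open Ordinal Cardinal Order Set
open scoped ZFSet

universe u

namespace Pool.Agent.H3.CP.CD3

open _root_.HD Pool.Agent.H3.HD.DM

/-- `Capt` in terms of sets -/
def CPZ (k A : ZFSet.{u}) : Prop :=
  ∃ U h, HMZ k U ∧ HOD h ∧ ∀ x, HOD x → x ⊆ k → (x ∈ A ↔ ∃ z ∈ U, ∀ b, b ∈ z ↔ b ∈ k ∧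
    ∃ c, ZFSet.pair b c ∈ h ∧ ∀ d, d ∈ c ↔ d ∈ x ∧ d ∈ b)

theorem pair_inter {b x h : ZFSet.{u}} : ZFSet.pair b (x ∩ b) ∈ h ↔
    ∃ c, ZFSet.pair b c ∈ h ∧ ∀ d, d ∈ c ↔ d ∈ x ∧ d ∈ b := by
  constructor
  · intro hh
    exact ⟨_, hh, fun d => ZFSet.mem_inter⟩
  · rintro ⟨c, hc, hd⟩
    have : x ∩ b = c := by
      ext d
      rw [ZFSet.mem_inter, hd]
    rwa [this]

theorem capt_iff {ν : Ordinal.{u}} {A : ZFSet.{u}} : Capt ν A ↔ CPZ ν.toZFSet A := by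
  unfold Capt CPZ
  refine exists_congr fun U => exists_congr fun h => and_congr hmeas_iff
    (and_congr_right fun _ => forall_congr' fun x => imp_congr_right fun _ =>
      imp_congr_right fun _ => iff_congr Iff.rfl ?_)
  rw [sep_mem]
  exact exists_congr fun z => and_congr_right fun _ => forall_congr' fun b =>
    iff_congr Iff.rfl (and_congr_right fun _ => pair_inter)

theorem dzc (i j : ℕ) : DZ.{u} fun v => CPZ (v i) (v j) := by
  refine DZ.ex (DZ.ex (DZ.and (dz_HMZ (i + 2) 1) (DZ.and (dz_hod 0) (DZ.all (DZ.imp (dz_hod 0)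
    (DZ.imp (Loc.sub 0 (i + 3)).dz (DZ.iff (DZ.mem 0 (j + 3)) (DZ.exMem 2 (DZ.all
      (DZ.iff (DZ.mem 0 1) (DZ.and (DZ.mem 0 (i + 5)) ?_)))))))))))
  exact DZ.ex (DZ.and (loc_pmem 1 0 4).dz (DZ.all (DZ.iff (DZ.mem 0 1)
    (DZ.and (DZ.mem 0 4) (DZ.mem 0 2)))))

theorem X : T_CD3.{u} := by
  refine ⟨fun v => ∀ A : ZFSet.{u}, HOD A → (∀ x ∈ A, x ⊆ v 0) → CPZ (v 0) A, ?_, ?_⟩
  · exact DZ.all (DZ.imp (dz_hod 0) (DZ.imp (DZ.allMem 0 (Loc.sub 0 2).dz) (dzc 1 0)))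
  · intro w
    show FullC (w 0) ↔ _
    exact forall_congr' fun A => imp_congr_right fun _ => imp_congr_right fun _ => capt_iff

end Pool.Agent.H3.CP.CD3
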