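import Mathlib
import Pool.Agent.H57.CP.Targets

/-!
Module AGR: at 0 the deformed representation is the planar one.
-/

namespace Pool.Agent.H3.CP

open Pool.Agent.H57.CP

theorem agr (h1 : T_ROO) (h2 : T_SSQ) : T_AGR := by
  intro a b σ R hab hσ hR
  obtain ⟨hc1, -, -⟩ := h1 a b hab
  obtain ⟨-, hS0, hcc, -, -⟩ := h2 a b hab
  have hb : (b : ℝ) ≠ 0 := by
    have := hab.2.1
    positivity
  -- the constants
  have hs : Real.sqrt (c0 a b ^ 2 - 1) = Real.sqrt (Ssq a b 0 0) := by
    rw [hcc]; congr 1; ring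
  have hc : Real.sqrt (1 + Ssq a b 0 0) = c0 a b := by
    rw [← hcc]
    exact Real.sqrt_sq (by linarith)
  set s := Real.sqrt (Ssq a b 0 0) with hsdef
  set c := c0 a b with hcdef
  have hs2 : s * s = c ^ 2 - 1 := by
    rw [hsdef, Real.mul_self_sqrt hS0.le, hcc]; ring
  have hA : aV a b 0 0 = ![s, 0, 0, c] := by
    unfold aV
    rw [hc, Real.cos_zero, Real.sin_zero, mul_one, mul_zero]
  have hB : bV 0 0 = ![0, 0, 1, 0] := by
    unfold bV
    rw [Real.cos_zero, Real.sin_zero]
    norm_num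
  set t := Real.pi / b with ht'
  have ht2 : Real.pi / (2 * b) = t / 2 := by
    rw [ht']; field_simp
  have hcos : Real.cos t = 1 - 2 * Real.sin (t / 2) ^ 2 := by
    have h := Real.cos_two_mul (t / 2)
    have h' := Real.sin_sq_add_cos_sq (t / 2)
    rw [mul_div_cancel₀ t (two_ne_zero)] at h
    linarith
  have hsin : Real.sin t = 2 * Real.sin (t / 2) * Real.cos (t / 2) := by
    have h := Real.sin_two_mul (t / 2)
    rw [mul_div_cancel₀ t (two_ne_zero)] at h
    exact h
  have hsc := Real.sin_sq_add_cos_sq (t / 2)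
  have a0 : al a b 0 = ![-c, 0, 0, -s] := by
    change ![-c0 a b, 0, 0, -Real.sqrt (c0 a b ^ 2 - 1)] = _
    rw [hs]
  have a1 : al a b 1 = ![Real.sin (t / 2), -Real.cos (t / 2), 0, 0] := by
    change ![Real.sin (Real.pi / (2 * b)), -Real.cos (Real.pi / (2 * b)), 0, 0] = _
    rw [ht2]
  have a2 : al a b 2 = ![0, 1, 0, 0] := rfl
  have r2 : ∀ y : V4, y 2 = 0 → refl (al a b 2) y = ![y 0, -y 1, 0, y 3] := by
    intro y hy
    rw [a2]
    funext i
    fin_cases i
    · simp [H57.CP.refl, mk]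
    · simp [H57.CP.refl, mk]; ring
    · simp [H57.CP.refl, mk, hy]
    · simp [H57.CP.refl, mk]
  have r1 : ∀ y : V4, y 2 = 0 → refl (al a b 1) y =
      ![Real.cos t * y 0 + Real.sin t * y 1, Real.sin t * y 0 - Real.cos t * y 1, 0, y 3] := by
    intro y hy
    rw [a1, hcos, hsin]
    funext i
    fin_cases i
    · simp [H57.CP.refl, mk]; ring
    · simp [H57.CP.refl, mk]
      linear_combination (-2 * y 1) * hsc
    · simp [H57.CP.refl, mk, hy]
    · simp [H57.CP.refl, mk]
  have r0 : ∀ y : V4, y 2 = 0 → refl (al a b 0) y =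
      ![-y 0 + 2 * (c * y 3 - s * y 0) * s, y 1, 0, -y 3 + 2 * (c * y 3 - s * y 0) * c] := by
    intro y hy
    rw [a0]
    funext i
    fin_cases i
    · simp [H57.CP.refl, mk]
      linear_combination (2 * y 0) * hs2
    · simp [H57.CP.refl, mk]
    · simp [H57.CP.refl, mk, hy]
    · simp [H57.CP.refl, mk]
      linear_combination (2 * y 3) * hs2
  have hR' := hR
  unfold Def at hR'
  rw [hA, hB] at hR'
  obtain ⟨R2, R1, R0⟩ := hR'
  let cs := (cm a b).toCoxeterSystem
  have key : ∀ w : (cm a b).Group, ∀ x : V4, x 2 = 0 → (σ w x) 2 = 0 ∧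
      R w (x, refl (al a b 2) x) = (σ w x, refl (al a b 2) (σ w x)) := by
    intro w
    refine cs.simple_induction_left (p := fun w => ∀ x : V4, x 2 = 0 → (σ w x) 2 = 0 ∧
      R w (x, refl (al a b 2) x) = (σ w x, refl (al a b 2) (σ w x))) w ?_ ?_
    · intro x hx
      rw [map_one, map_one]
      exact ⟨hx, rfl⟩
    · intro w i ih x hx
      obtain ⟨h3, h4⟩ := ih x hx
      have e1 : σ (cs.simple i * w) x = refl (al a b i) (σ w x) := by
        rw [map_mul]
        change σ (sm a b i) (σ w x) = _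
        rw [hσ i]
      have e2 : R (cs.simple i * w) (x, refl (al a b 2) x) =
          R (sm a b i) (σ w x, refl (al a b 2) (σ w x)) := by
        rw [map_mul]
        change R (sm a b i) (R w (x, refl (al a b 2) x)) = _
        rw [h4]
      rw [e1, e2]
      generalize σ w x = y at h3
      fin_cases i
      · change (refl (al a b 0) y) 2 = 0 ∧ R (sm a b 0) (y, refl (al a b 2) y) =
          (refl (al a b 0) y, refl (al a b 2) (refl (al a b 0) y))
        have h5 : (refl (al a b 0) y) 2 = 0 := by rw [r0 y h3]; rfl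
        refine ⟨h5, ?_⟩
        rw [R0, r2 _ h5, r2 _ h3, r0 _ h3]
        refine Prod.ext ?_ ?_
        · funext i
          fin_cases i <;> simp [ht, mk]
        · funext i
          fin_cases i
          · simp [ht, mk, h3]
          · simp [ht, mk, h3]
          · simp [ht, mk, h3]
          · simp [ht, mk, h3]
      · change (refl (al a b 1) y) 2 = 0 ∧ R (sm a b 1) (y, refl (al a b 2) y) =
          (refl (al a b 1) y, refl (al a b 2) (refl (al a b 1) y))
        have h5 : (refl (al a b 1) y) 2 = 0 := by rw [r1 y h3]; rfl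
        refine ⟨h5, ?_⟩
        rw [R1, r2 _ h5, r2 _ h3, r1 _ h3]
        refine Prod.ext ?_ ?_
        · funext i
          fin_cases i <;> simp [rot] <;> ring
        · funext i
          fin_cases i <;> simp [rot, h3] <;> ring
      · change (refl (al a b 2) y) 2 = 0 ∧ R (sm a b 2) (y, refl (al a b 2) y) =
          (refl (al a b 2) y, refl (al a b 2) (refl (al a b 2) y))
        have h5 : (refl (al a b 2) y) 2 = 0 := by rw [r2 y h3]; rfl
        refine ⟨h5, ?_⟩
        rw [R2, r2 _ h5, r2 _ h3]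
        refine Prod.ext rfl ?_
        funext i
        fin_cases i <;> simp [h3]
  -- the even subgroup preserves the blocks
  have hblk : ∀ w ∈ Ev a b, ∀ x y : V4, (R w (x, y)).1 = (R w (x, 0)).1 ∧ (R w (x, 0)).2 = 0 := by
    have hinv : ∀ i, (sm a b i)⁻¹ = sm a b i := fun i => cs.inv_simple i
    intro w hw
    refine Subgroup.closure_induction'' (p := fun w _ => ∀ x y : V4,
      (R w (x, y)).1 = (R w (x, 0)).1 ∧ (R w (x, 0)).2 = 0) ?_ ?_ ?_ ?_ hw
    · rintro w (rfl | rfl) x y
      · rw [map_mul]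
        change (R (sm a b 1) (R (sm a b 2) (x, y))).1 = (R (sm a b 1) (R (sm a b 2) (x, 0))).1 ∧
          (R (sm a b 1) (R (sm a b 2) (x, 0))).2 = 0
        rw [R2, R2, R1, R1]
        exact ⟨rfl, map_zero _⟩
      · rw [map_mul]
        change (R (sm a b 0) (R (sm a b 2) (x, y))).1 = (R (sm a b 0) (R (sm a b 2) (x, 0))).1 ∧
          (R (sm a b 0) (R (sm a b 2) (x, 0))).2 = 0
        rw [R2, R2, R0, R0]
        exact ⟨rfl, map_zero _⟩
    · rintro w (rfl | rfl) x y
      · rw [mul_inv_rev, hinv, hinv, map_mul]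
        change (R (sm a b 2) (R (sm a b 1) (x, y))).1 = (R (sm a b 2) (R (sm a b 1) (x, 0))).1 ∧
          (R (sm a b 2) (R (sm a b 1) (x, 0))).2 = 0
        rw [R1, R1, R2, R2]
        exact ⟨rfl, map_zero _⟩
      · rw [mul_inv_rev, hinv, hinv, map_mul]
        change (R (sm a b 2) (R (sm a b 0) (x, y))).1 = (R (sm a b 2) (R (sm a b 0) (x, 0))).1 ∧
          (R (sm a b 2) (R (sm a b 0) (x, 0))).2 = 0
        rw [R0, R0, R2, R2]
        exact ⟨rfl, map_zero _⟩
    · intro x y
      rw [map_one]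
      exact ⟨rfl, rfl⟩
    · intro w w' _ _ ihw ihw' x y
      rw [map_mul]
      change (R w (R w' (x, y))).1 = (R w (R w' (x, 0))).1 ∧ (R w (R w' (x, 0))).2 = 0
      have e1 : R w' (x, 0) = ((R w' (x, 0)).1, 0) := Prod.ext rfl (ihw' x 0).2
      have e2 : R w' (x, y) = ((R w' (x, 0)).1, (R w' (x, y)).2) := Prod.ext (ihw' x y).1 rfl
      constructor
      · rw [e2, (ihw _ _).1, e1]
      · rw [e1]
        exact (ihw _ 0).2
  intro w hw x hx
  have h3 := hblk w hw x (refl (al a b 2) x)
  refine Prod.ext ?_ h3.2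
  rw [← h3.1, (key w x hx).2]

end Pool.Agent.H3.CP
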