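import Mathlib
import Pool.Agent.H57.CP.Targets

/-!
Module CNT: existence and continuity of the deformed representations.
-/

namespace Pool.Agent.H3.CP

open Pool.Agent.H57.CP Topology

theorem rot_mul (t d t' d' : ℝ) : rot t d * rot t' d' = rot (t + t') (d * d') := by
  refine LinearMap.ext fun x => ?_
  funext i
  fin_cases i
  · change Real.cos t * (Real.cos t' * x 0 - Real.sin t' * x 1) -
        Real.sin t * (Real.sin t' * x 0 + Real.cos t' * x 1) =
      Real.cos (t + t') * x 0 - Real.sin (t + t') * x 1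
    rw [Real.cos_add, Real.sin_add]; ring
  · change Real.sin t * (Real.cos t' * x 0 - Real.sin t' * x 1) +
        Real.cos t * (Real.sin t' * x 0 + Real.cos t' * x 1) =
      Real.sin (t + t') * x 0 + Real.cos (t + t') * x 1
    rw [Real.cos_add, Real.sin_add]; ring
  · change d * (d' * x 2) = d * d' * x 2
    ring
  · rfl

theorem rot_zero : rot 0 1 = 1 := by
  refine LinearMap.ext fun x => ?_
  funext i
  fin_cases i
  · change Real.cos 0 * x 0 - Real.sin 0 * x 1 = x 0
    rw [Real.cos_zero, Real.sin_zero]; ring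
  · change Real.sin 0 * x 0 + Real.cos 0 * x 1 = x 1
    rw [Real.cos_zero, Real.sin_zero]; ring
  · change 1 * x 2 = x 2
    ring
  · rfl

theorem rot_pow (t d : ℝ) (n : ℕ) : rot t d ^ n = rot (n * t) (d ^ n) := by
  induction n with
  | zero =>
    rw [pow_zero, pow_zero, Nat.cast_zero, zero_mul, rot_zero]
  | succ n ih =>
    rw [pow_succ, ih, rot_mul, pow_succ]
    congr 1
    push_cast
    ring

theorem rot_two_pi : rot (2 * Real.pi) 1 = 1 := by
  rw [← rot_zero]
  refine LinearMap.ext fun x => ?_
  funext i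
  fin_cases i
  · change Real.cos (2 * Real.pi) * x 0 - Real.sin (2 * Real.pi) * x 1 =
      Real.cos 0 * x 0 - Real.sin 0 * x 1
    rw [Real.cos_two_pi, Real.sin_two_pi, Real.cos_zero, Real.sin_zero]
  · change Real.sin (2 * Real.pi) * x 0 + Real.cos (2 * Real.pi) * x 1 =
      Real.sin 0 * x 0 + Real.cos 0 * x 1
    rw [Real.cos_two_pi, Real.sin_two_pi, Real.cos_zero, Real.sin_zero]
  · rfl
  · rfl

theorem cont_mk {f g : ℝ × ℝ → V4} {p : ℝ × ℝ} (hf : ContinuousAt f p) (hg : ContinuousAt g p) :
    ContinuousAt (fun t => mk (f t) (g t)) p := by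
  have hf' := continuousAt_pi.1 hf
  have hg' := continuousAt_pi.1 hg
  unfold mk
  exact ((((hf' 3).mul (hg' 3)).sub ((hf' 0).mul (hg' 0))).sub ((hf' 1).mul (hg' 1))).sub
    ((hf' 2).mul (hg' 2))

theorem cont_ht {A B Y : ℝ × ℝ → V4} {p : ℝ × ℝ} (hA : ContinuousAt A p) (hB : ContinuousAt B p)
    (hY : ContinuousAt Y p) : ContinuousAt (fun t => ht (A t) (B t) (Y t)) p := by
  rw [continuousAt_pi]
  intro i
  have hA' := continuousAt_pi.1 hA
  have hB' := continuousAt_pi.1 hB
  have hY' := continuousAt_pi.1 hY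
  change ContinuousAt (fun t => -(Y t) i + 2 * mk (A t) (Y t) * (A t) i -
    2 * mk (B t) (Y t) * (B t) i) p
  exact (((hY' i).neg).add ((continuousAt_const.mul (cont_mk hA hY)).mul (hA' i))).sub
    ((continuousAt_const.mul (cont_mk hB hY)).mul (hB' i))

theorem cont_lin (S : Module.End ℝ V4) {Y : ℝ × ℝ → V4} {p : ℝ × ℝ} (hY : ContinuousAt Y p) :
    ContinuousAt (fun t => S (Y t)) p :=
  (LinearMap.continuous_of_finiteDimensional S).continuousAt.comp hY

theorem cnt (h1 : T_SSQ) (h2 : T_TRR) (h3 : T_LFT) (h4 : T_LOR) : T_CNT := by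
  intro a b hab
  obtain ⟨hc, h0, -, h5, -⟩ := h1 a b hab
  have hb : (b : ℝ) ≠ 0 := by
    have := hab.2.1
    positivity
  refine ⟨fun u w hS => ?_, ?_⟩
  · obtain ⟨haa, hbb, hab'⟩ := h5 u w hS
    obtain ⟨R, hR⟩ := h3 a b (rot (Real.pi / b) (-1)) (rot (-(Real.pi / b)) (-1))
      (ht (aV a b u w) (bV u w)) (by
        rw [rot_mul, add_neg_cancel]
        norm_num
        exact rot_zero) (by
        rw [rot_mul, neg_add_cancel]
        norm_num
        exact rot_zero) (by
        rw [rot_pow, pow_mul]
        have : ((2 * b : ℕ) : ℝ) * (Real.pi / b) = 2 * Real.pi := by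
          push_cast
          field_simp
        rw [this]
        norm_num
        exact rot_two_pi) (h4.2.1 _ _ haa hbb hab').2 (h2 a b u w hab hS)
    exact ⟨R, hR⟩
  · intro R hR γ x y
    have hev : ∀ᶠ t : ℝ × ℝ in 𝓝 (0, 0), 0 < Ssq a b t.1 t.2 :=
      hc.continuousAt.eventually (lt_mem_nhds h0)
    have cA : Continuous (fun t : ℝ × ℝ => aV a b t.1 t.2) := by
      refine continuous_pi fun i => ?_
      have e1 : Continuous (fun t : ℝ × ℝ => Real.sqrt (Ssq a b t.1 t.2)) := hc.sqrt
      have e2 : Continuous (fun t : ℝ × ℝ => Real.sqrt (1 + Ssq a b t.1 t.2)) :=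
        (continuous_const.add hc).sqrt
      fin_cases i
      · exact e1.mul (Real.continuous_cos.comp continuous_fst)
      · exact continuous_const
      · exact e1.mul (Real.continuous_sin.comp continuous_fst)
      · exact e2
    have cB : Continuous (fun t : ℝ × ℝ => bV t.1 t.2) := by
      refine continuous_pi fun i => ?_
      fin_cases i
      · change Continuous (fun t : ℝ × ℝ => -Real.sin t.1 * Real.cos t.2)
        fun_prop
      · change Continuous (fun t : ℝ × ℝ => Real.sin t.2)
        fun_prop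
      · change Continuous (fun t : ℝ × ℝ => Real.cos t.1 * Real.cos t.2)
        fun_prop
      · exact continuous_const
    let cs := (cm a b).toCoxeterSystem
    have key : ∀ (ω : List (Fin 3)) (X Y : ℝ × ℝ → V4), ContinuousAt X (0, 0) →
        ContinuousAt Y (0, 0) →
        ContinuousAt (fun t : ℝ × ℝ => R t.1 t.2 (cs.wordProd ω) (X t, Y t)) (0, 0) := by
      intro ω
      induction ω with
      | nil =>
        intro X Y hX hY
        have : (fun t : ℝ × ℝ => R t.1 t.2 (cs.wordProd []) (X t, Y t)) = fun t => (X t, Y t) := by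
          funext t
          rw [cs.wordProd_nil, map_one]
          rfl
        rw [this]
        exact hX.prodMk hY
      | cons i ω ih =>
        intro X Y hX hY
        have hZ := ih X Y hX hY
        set Z := fun t : ℝ × ℝ => R t.1 t.2 (cs.wordProd ω) (X t, Y t) with hZdef
        have hZ1 : ContinuousAt (fun t => (Z t).1) (0, 0) := hZ.fst
        have hZ2 : ContinuousAt (fun t => (Z t).2) (0, 0) := hZ.snd
        have hstep : ∀ t : ℝ × ℝ, R t.1 t.2 (cs.wordProd (i :: ω)) (X t, Y t) =
            R t.1 t.2 (sm a b i) ((Z t).1, (Z t).2) := by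
          intro t
          rw [cs.wordProd_cons, map_mul]
          rfl
        fin_cases i
        · refine ContinuousAt.congr (f := fun t : ℝ × ℝ =>
            ((ht (aV a b t.1 t.2) (bV t.1 t.2) (Z t).2, ht (aV a b t.1 t.2) (bV t.1 t.2) (Z t).1) :
              V4 × V4)) ?_ ?_
          · exact (cont_ht cA.continuousAt cB.continuousAt hZ2).prodMk
              (cont_ht cA.continuousAt cB.continuousAt hZ1)
          · filter_upwards [hev] with t ht
            rw [hstep]
            exact ((hR t.1 t.2 ht).r0 _ _).symm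
        · refine ContinuousAt.congr (f := fun t : ℝ × ℝ =>
            ((rot (Real.pi / b) (-1) (Z t).2, rot (-(Real.pi / b)) (-1) (Z t).1) : V4 × V4)) ?_ ?_
          · exact (cont_lin _ hZ2).prodMk (cont_lin _ hZ1)
          · filter_upwards [hev] with t ht
            rw [hstep]
            exact ((hR t.1 t.2 ht).r1 _ _).symm
        · refine ContinuousAt.congr (f := fun t : ℝ × ℝ => (((Z t).2, (Z t).1) : V4 × V4)) ?_ ?_
          · exact hZ2.prodMk hZ1
          · filter_upwards [hev] with t ht
            rw [hstep]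
            exact ((hR t.1 t.2 ht).r2 _ _).symm
    obtain ⟨ω, rfl⟩ := cs.wordProd_surjective γ
    exact key ω (fun _ => x) (fun _ => y) continuousAt_const continuousAt_const

end Pool.Agent.H3.CP
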