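import Mathlib
import Pool.Agent.H57.CP.Targets

/-!
Module LFT: lift to the block representation.
-/

namespace Pool.Agent.H3.CP

open Pool.Agent.H57.CP

theorem pow_prodMap {V : Type} [AddCommGroup V] [Module ℝ V] (A B : Module.End ℝ V) (n : ℕ) :
    (LinearMap.prodMap A B : Module.End ℝ (V × V)) ^ n = LinearMap.prodMap (A ^ n) (B ^ n) := by
  induction n with
  | zero => rfl
  | succ n ih =>
    rw [pow_succ, ih, pow_succ, pow_succ]
    rfl

theorem pow_shift {M : Type} [Monoid M] (A B : M) (n : ℕ) : A * (B * A) ^ n = (A * B) ^ n * A := by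
  induction n with
  | zero => rw [pow_zero, pow_zero, mul_one, one_mul]
  | succ n ih =>
    rw [pow_succ, pow_succ, ← mul_assoc, ih]
    simp only [mul_assoc]

theorem pow_inv_one {M : Type} [Monoid M] (A B : M) (n : ℕ) (h : A * B = 1) (h' : B * A = 1)
    (hA : A ^ n = 1) : B ^ n = 1 := by
  have hc : Commute A B := by rw [commute_iff_eq, h, h']
  have h1 : (A * B) ^ n = A ^ n * B ^ n := hc.mul_pow n
  rw [h, one_pow, hA, one_mul] at h1
  exact h1.symm

theorem lft : T_LFT := by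
  intro a b S S' T h1 h2 h3 h4 h5
  let F2 : Module.End ℝ (V4 × V4) := LinearMap.prod (LinearMap.snd ℝ V4 V4) (LinearMap.fst ℝ V4 V4)
  let F1 : Module.End ℝ (V4 × V4) :=
    LinearMap.prod (S ∘ₗ LinearMap.snd ℝ V4 V4) (S' ∘ₗ LinearMap.fst ℝ V4 V4)
  let F0 : Module.End ℝ (V4 × V4) :=
    LinearMap.prod (T ∘ₗ LinearMap.snd ℝ V4 V4) (T ∘ₗ LinearMap.fst ℝ V4 V4)
  have e1 : ∀ x, S (S' x) = x := fun x => LinearMap.congr_fun h1 x
  have e2 : ∀ x, S' (S x) = x := fun x => LinearMap.congr_fun h2 x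
  have e4 : ∀ x, T (T x) = x := fun x => LinearMap.congr_fun h4 x
  have p1 : ∀ n : ℕ, S ^ n = 1 → S' ^ n = 1 := fun n h => pow_inv_one S S' n h1 h2 h
  have q1 : (S * T) ^ (2 * a) = 1 := by
    apply pow_inv_one (T * S') (S * T) _ _ _ h5
    · rw [mul_assoc, ← mul_assoc S', h2, one_mul, h4]
    · rw [mul_assoc, ← mul_assoc T, h4, one_mul, h1]
  have q2 : (T * S) ^ (2 * a) = 1 := by
    have h := pow_shift T S (2 * a)
    rw [q1, mul_one] at h
    have h' := congrArg (fun z => z * T) h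
    simp only [mul_assoc, h4, mul_one] at h'
    exact h'.symm
  have q3 : (S' * T) ^ (2 * a) = 1 := by
    have h := pow_shift T S' (2 * a)
    rw [h5, one_mul] at h
    have h' := congrArg (fun z => T * z) h
    simp only [← mul_assoc, h4, one_mul] at h'
    exact h'
  have hone : (LinearMap.prodMap (1 : Module.End ℝ V4) 1 : Module.End ℝ (V4 × V4)) = 1 := rfl
  have g00 : F0 * F0 = 1 := by
    refine LinearMap.ext fun x => ?_
    exact Prod.ext (e4 _) (e4 _)
  have g11 : F1 * F1 = 1 := by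
    refine LinearMap.ext fun x => ?_
    exact Prod.ext (e1 _) (e2 _)
  have g22 : F2 * F2 = 1 := rfl
  have g12 : F1 * F2 = LinearMap.prodMap S S' := rfl
  have g21 : F2 * F1 = LinearMap.prodMap S' S := rfl
  have g02 : F0 * F2 = LinearMap.prodMap T T := rfl
  have g20 : F2 * F0 = LinearMap.prodMap T T := rfl
  have g01 : F0 * F1 = LinearMap.prodMap (T * S') (T * S) := rfl
  have g10 : F1 * F0 = LinearMap.prodMap (S * T) (S' * T) := rfl
  have hl : (cm a b).IsLiftable (![F0, F1, F2] : Fin 3 → Module.End ℝ (V4 × V4)) := by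
    intro i j
    have m00 : (cm a b) 0 0 = 1 := rfl
    have m11 : (cm a b) 1 1 = 1 := rfl
    have m22 : (cm a b) 2 2 = 1 := rfl
    have m01 : (cm a b) 0 1 = 2 * a := rfl
    have m10 : (cm a b) 1 0 = 2 * a := rfl
    have m02 : (cm a b) 0 2 = 2 := rfl
    have m20 : (cm a b) 2 0 = 2 := rfl
    have m12 : (cm a b) 1 2 = 2 * b := rfl
    have m21 : (cm a b) 2 1 = 2 * b := rfl
    fin_cases i <;> fin_cases j
    · change (F0 * F0) ^ ((cm a b) 0 0 : ℕ) = 1
      rw [m00, pow_one, g00]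
    · change (F0 * F1) ^ ((cm a b) 0 1 : ℕ) = 1
      rw [m01, g01, pow_prodMap, h5, q2, hone]
    · change (F0 * F2) ^ ((cm a b) 0 2 : ℕ) = 1
      rw [m02, g02, pow_prodMap, pow_two, h4, hone]
    · change (F1 * F0) ^ ((cm a b) 1 0 : ℕ) = 1
      rw [m10, g10, pow_prodMap, q1, q3, hone]
    · change (F1 * F1) ^ ((cm a b) 1 1 : ℕ) = 1
      rw [m11, pow_one, g11]
    · change (F1 * F2) ^ ((cm a b) 1 2 : ℕ) = 1
      rw [m12, g12, pow_prodMap, h3, p1 _ h3, hone]
    · change (F2 * F0) ^ ((cm a b) 2 0 : ℕ) = 1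
      rw [m20, g20, pow_prodMap, pow_two, h4, hone]
    · change (F2 * F1) ^ ((cm a b) 2 1 : ℕ) = 1
      rw [m21, g21, pow_prodMap, h3, p1 _ h3, hone]
    · change (F2 * F2) ^ ((cm a b) 2 2 : ℕ) = 1
      rw [m22, pow_one, g22]
  let R := (cm a b).toCoxeterSystem.lift ⟨![F0, F1, F2], hl⟩
  have hR : ∀ i, R (sm a b i) = (![F0, F1, F2] : Fin 3 → Module.End ℝ (V4 × V4)) i := fun i =>
    (cm a b).toCoxeterSystem.lift_apply_simple hl i
  refine ⟨R, ⟨fun x y => ?_, fun x y => ?_, fun x y => ?_⟩⟩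
  · rw [hR 2]
    rfl
  · rw [hR 1]
    rfl
  · rw [hR 0]
    rfl

end Pool.Agent.H3.CP
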