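import Mathlib
import Pool.Agent.H57.CP.Targets

/-!
Module TRR: the relation of the faces.
-/

namespace Pool.Agent.H3.CP

open Pool.Agent.H57.CP Polynomial

theorem lor_mul {A B : V4 →ₗ[ℝ] V4} (hA : Lor A) (hB : Lor B) : Lor (A * B) := by
  refine ⟨fun x y => ?_, fun x => ?_⟩
  · change mk (A (B x)) (A (B y)) = mk x y
    rw [hA.1, hB.1]
  · have h1 : mk (B x.1) (B x.1) = 1 := by rw [hB.1]; exact x.2.1
    exact hA.2 ⟨B x.1, h1, hB.2 x⟩

/-- the quadratic factor divides `X ^ n` minus its remainder -/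
theorem quad_dvd (ψ : ℝ) (hs : Real.sin ψ ≠ 0) (n : ℕ) :
    (X ^ 2 - C (2 * Real.cos ψ) * X + 1 : ℝ[X]) ∣
      X ^ n - (C (Real.sin (n * ψ) / Real.sin ψ) * X - C (Real.sin ((n - 1) * ψ) / Real.sin ψ)) := by
  induction n with
  | zero =>
    have h : (X ^ 0 - (C (Real.sin ((0 : ℕ) * ψ) / Real.sin ψ) * X -
        C (Real.sin (((0 : ℕ) - 1) * ψ) / Real.sin ψ)) : ℝ[X]) = 0 := by
      have h1 : Real.sin (((0 : ℕ) : ℝ) * ψ) = 0 := by simp
      have h2 : Real.sin ((((0 : ℕ) : ℝ) - 1) * ψ) = - Real.sin ψ := by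
        rw [← Real.sin_neg]; congr 1; push_cast; ring
      rw [h1, h2, neg_div, div_self hs]
      simp
    rw [h]
    exact dvd_zero _
  | succ n ih =>
    obtain ⟨q, hq⟩ := ih
    have h2 : Real.sin (((n + 1 : ℕ) : ℝ) * ψ) =
        2 * Real.cos ψ * Real.sin (n * ψ) - Real.sin ((n - 1) * ψ) := by
      have e1 : ((n + 1 : ℕ) : ℝ) * ψ = n * ψ + ψ := by push_cast; ring
      have e2 : ((n : ℝ) - 1) * ψ = n * ψ - ψ := by ring
      rw [e1, e2, Real.sin_add, Real.sin_sub]; ring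
    have h3 : (((n + 1 : ℕ) : ℝ) - 1) * ψ = n * ψ := by push_cast; ring
    rw [h2, h3]
    have h4 : (X ^ n : ℝ[X]) = (X ^ 2 - C (2 * Real.cos ψ) * X + 1) * q +
        (C (Real.sin (n * ψ) / Real.sin ψ) * X - C (Real.sin ((n - 1) * ψ) / Real.sin ψ)) := by
      rw [← hq]; ring
    refine ⟨X * q + C (Real.sin (n * ψ) / Real.sin ψ), ?_⟩
    rw [pow_succ, h4]
    have h5 : (2 * Real.cos ψ * Real.sin (n * ψ) - Real.sin ((n - 1) * ψ)) / Real.sin ψ =
        2 * Real.cos ψ * (Real.sin (n * ψ) / Real.sin ψ) - Real.sin ((n - 1) * ψ) / Real.sin ψ := by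
      ring
    have h6 : (C (2 * Real.cos ψ * (Real.sin (n * ψ) / Real.sin ψ)) : ℝ[X]) =
        C (2 * Real.cos ψ) * C (Real.sin (n * ψ) / Real.sin ψ) := C_mul
    rw [h5, C_sub, h6]
    ring

/-- the characteristic polynomial divides `X ^ (2 a) - 1` -/
theorem char_dvd (a : ℕ) (ha : 2 ≤ a) :
    ((X ^ 2 - 1) * (X ^ 2 - C (2 * Real.cos (Real.pi / a)) * X + 1) : ℝ[X]) ∣ X ^ (2 * a) - 1 := by
  have ha' : (2 : ℝ) ≤ a := by exact_mod_cast ha
  have hpos : 0 < Real.pi / a := div_pos Real.pi_pos (by linarith)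
  have hlt : Real.pi / a < Real.pi := by
    rw [div_lt_iff₀ (by linarith)]
    nlinarith [Real.pi_pos]
  have hs : 0 < Real.sin (Real.pi / a) := Real.sin_pos_of_pos_of_lt_pi hpos hlt
  set ψ := Real.pi / a with hψ
  have haψ : (a : ℝ) * ψ = Real.pi := by
    rw [hψ]; field_simp
  apply IsCoprime.mul_dvd
  · -- coprime
    set τ := 2 * Real.cos ψ with hτ
    have h4 : (4 - τ ^ 2) ≠ 0 := by
      have : 4 - τ ^ 2 = 4 * Real.sin ψ ^ 2 := by
        rw [hτ, Real.sin_sq]; ring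
      rw [this]
      positivity
    refine ⟨C (1 / (4 - τ ^ 2)) * (C (τ ^ 2) - 2 - C τ * X), C (1 / (4 - τ ^ 2)) * (2 + C τ * X), ?_⟩
    have h5 : (C (1 / (4 - τ ^ 2)) * (4 - C (τ ^ 2)) : ℝ[X]) = 1 := by
      have h6 : (4 - C (τ ^ 2) : ℝ[X]) = C (4 - τ ^ 2) := by
        rw [C_sub]; rfl
      rw [h6, ← C_mul, one_div, inv_mul_cancel₀ h4, C_1]
    refine Eq.trans ?_ h5
    rw [C_pow]
    ring
  · have h := sub_dvd_pow_sub_pow (X ^ 2 : ℝ[X]) 1 a
    rw [one_pow, ← pow_mul] at h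
    exact h
  · have h := quad_dvd ψ hs.ne' (2 * a)
    have e1 : Real.sin (((2 * a : ℕ) : ℝ) * ψ) = 0 := by
      have : ((2 * a : ℕ) : ℝ) * ψ = 2 * Real.pi := by push_cast; rw [mul_assoc, haψ]
      rw [this, Real.sin_two_pi]
    have e2 : Real.sin ((((2 * a : ℕ) : ℝ) - 1) * ψ) = - Real.sin ψ := by
      have : (((2 * a : ℕ) : ℝ) - 1) * ψ = 2 * Real.pi - ψ := by push_cast; rw [sub_mul, mul_assoc, haψ]; ring
      rw [this, Real.sin_two_pi_sub]
    rw [e1, e2, zero_div, C_0, zero_mul, zero_sub, neg_div, div_self hs.ne', C_neg, C_1, neg_neg] at h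
    exact h

theorem trr (h1 : T_CHP) (h2 : T_DET) (h3 : T_LOR) (h4 : T_SSQ) : T_TRR := by
  intro a b u w hab hS
  obtain ⟨-, -, -, h5, -⟩ := h4 a b hab
  obtain ⟨haa, hbb, hab'⟩ := h5 u w hS
  set A := aV a b u w with hA
  set B := bV u w with hB
  set t := Real.pi / b with ht'
  have hL : Lor (ht A B * rot (-t) (-1)) := lor_mul (h3.2.1 A B haa hbb hab').1 (h3.1 (-t) (-1) (Or.inr rfl))
  have hdet : LinearMap.det (ht A B * rot (-t) (-1)) = -1 := by
    rw [map_mul, (h2.2 A B haa hbb hab').1, (h2.1 (-t) (-1)).1, one_mul]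
  have htr : LinearMap.trace ℝ V4 (ht A B * rot (-t) (-1)) = 2 * Real.cos (Real.pi / a) := by
    rw [(h2.2 A B haa hbb hab').2, (h2.1 (-t) (-1)).2, Real.cos_neg]
    have hD : (1 - Real.cos t) * Real.cos u ^ 2 + 2 * Real.sin u ^ 2 ≠ 0 := by
      intro h0
      unfold Ssq at hS
      rw [h0, div_zero] at hS
      exact lt_irrefl _ hS
    have hSD : Ssq a b u w * ((1 - Real.cos t) * Real.cos u ^ 2 + 2 * Real.sin u ^ 2) =
        Real.cos (Real.pi / a) + Real.cos t -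
          (1 + Real.cos t) * (Real.sin u ^ 2 * Real.cos w ^ 2 + Real.sin w ^ 2) := by
      unfold Ssq
      rw [div_mul_cancel₀ _ hD]
    have hs2 : Real.sqrt (Ssq a b u w) * Real.sqrt (Ssq a b u w) = Ssq a b u w :=
      Real.mul_self_sqrt hS.le
    have hc2 : Real.sqrt (1 + Ssq a b u w) * Real.sqrt (1 + Ssq a b u w) = 1 + Ssq a b u w :=
      Real.mul_self_sqrt (by linarith)
    have m1 : mk A (rot (-t) (-1) A) = 1 + Ssq a b u w +
        Ssq a b u w * (Real.sin u ^ 2 - Real.cos u ^ 2 * Real.cos t) := by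
      have : mk A (rot (-t) (-1) A) = Real.sqrt (1 + Ssq a b u w) * Real.sqrt (1 + Ssq a b u w) +
          (Real.sqrt (Ssq a b u w) * Real.sqrt (Ssq a b u w)) *
            (Real.sin u ^ 2 - Real.cos u ^ 2 * Real.cos t) := by
        rw [hA]
        simp only [mk, rot, aV, LinearMap.coe_mk, AddHom.coe_mk, Matrix.cons_val, Real.cos_neg,
          Real.sin_neg]
        ring
      rw [this, hs2, hc2]
    have m2 : mk B (rot (-t) (-1) B) = (Real.cos u * Real.cos w) ^ 2 -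
        Real.cos t * (Real.sin u ^ 2 * Real.cos w ^ 2 + Real.sin w ^ 2) := by
      rw [hB]
      simp only [mk, rot, bV, LinearMap.coe_mk, AddHom.coe_mk, Matrix.cons_val, Real.cos_neg,
          Real.sin_neg]
      ring
    rw [m1, m2]
    have c1 := Real.sin_sq_add_cos_sq u
    have c2 := Real.sin_sq_add_cos_sq w
    have hu : Real.cos u ^ 2 = 1 - Real.sin u ^ 2 := by linarith
    have hw : Real.cos w ^ 2 = 1 - Real.sin w ^ 2 := by linarith
    rw [mul_pow]
    rw [hu] at hSD ⊢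
    rw [hw] at hSD ⊢
    linear_combination 2 * hSD
  have hchp := h1 _ hL hdet
  rw [htr] at hchp
  set M := ht A B * rot (-t) (-1) with hM
  obtain ⟨q, hq⟩ := char_dvd a hab.1
  generalize 2 * Real.cos (Real.pi / a) = τ at hchp hq
  have hp : aeval (M : Module.End ℝ V4) ((X ^ 2 - 1) * (X ^ 2 - C τ * X + 1) : ℝ[X]) = 0 := by
    have e1 : ((X ^ 2 - 1) * (X ^ 2 - C τ * X + 1) : ℝ[X]) =
        X ^ 4 - (C τ * X ^ 3 - C τ * X + 1) := by
      ring
    rw [e1, map_sub, map_add, map_sub, map_mul, map_mul, map_pow, map_pow, aeval_X, aeval_C, map_one,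
      ← Algebra.smul_def, ← Algebra.smul_def, hchp, sub_self]
  have hfin : aeval (M : Module.End ℝ V4) (X ^ (2 * a) - 1 : ℝ[X]) = 0 := by
    rw [hq, map_mul, hp, zero_mul]
  rw [map_sub, map_pow, aeval_X, map_one, sub_eq_zero] at hfin
  exact hfin

end Pool.Agent.H3.CP
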